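import Mathlib

/-!
# A weight sequence with exact distributional chaos exponent
-/

set_option autoImplicit false

namespace Pool.Agent.V11113.DC

open Filter Topology

lemma ev (c : ℝ) (j : ℕ) : ∀ᶠ A : ℕ in atTop, c * (A : ℝ) ^ j ≤ 2 ^ A := by
  have h := tendsto_pow_const_div_const_pow_of_one_lt j (r := (2 : ℝ)) (by norm_num)
  have h1 : Tendsto (fun n : ℕ => c * ((n : ℝ) ^ j / 2 ^ n)) atTop (𝓝 (c * 0)) := h.const_mul c
  rw [mul_zero] at h1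
  filter_upwards [h1.eventually_le_const (show (0 : ℝ) < 1 by norm_num)] with n hn
  rw [mul_div_assoc', div_le_one (by positivity)] at hn
  exact hn

/-- end of the block -/
noncomputable def bb (q : ℝ) (k A : ℕ) : ℕ := ⌈(((2 : ℝ) ^ A) * (k + 1)) ^ q⌉₊

/-- existence of the fast growing sequence of exponents -/
theorem exists_A (q : ℝ) (m : ℕ) :
    ∃ A : ℕ → ℕ, ∀ k : ℕ, 1 ≤ A k ∧ 9 * ((k : ℝ) + 1) ^ m ≤ 2 ^ (A k) ∧
      (m : ℝ) * A k ≤ 2 ^ (A k) ∧ (((k : ℝ) + 1) * (m * A k)) ^ (k + 1) ≤ 2 ^ (A k) ∧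
      (((k : ℝ) + 1) * bb q k (A k)) ^ q * (m * A (k + 1)) ≤ 2 ^ (A (k + 1)) ∧
      4 * ((bb q k (A k) : ℝ) + 1) * (m * A (k + 1)) ≤ 2 ^ (A (k + 1)) := by
  classical
  have hP : ∀ k : ℕ, ∀ᶠ A : ℕ in atTop, 1 ≤ A ∧ 9 * ((k : ℝ) + 1) ^ m ≤ 2 ^ A ∧
      (m : ℝ) * A ≤ 2 ^ A ∧ (((k : ℝ) + 1) * (m * A)) ^ (k + 1) ≤ 2 ^ A := by
    intro k
    filter_upwards [eventually_ge_atTop 1, ev (9 * ((k : ℝ) + 1) ^ m) 0, ev m 1,
      ev ((((k : ℝ) + 1) * m) ^ (k + 1)) (k + 1)] with A h1 h2 h3 h4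
    refine ⟨h1, by simpa using h2, by simpa using h3, ?_⟩
    refine le_trans (le_of_eq ?_) h4
    rw [← mul_pow]
    ring
  have hQ : ∀ k x : ℕ, ∀ᶠ A : ℕ in atTop,
      (((k : ℝ) + 1) * bb q k x) ^ q * (m * A) ≤ 2 ^ A ∧
      4 * ((bb q k x : ℝ) + 1) * (m * A) ≤ 2 ^ A := by
    intro k x
    filter_upwards [ev ((((k : ℝ) + 1) * bb q k x) ^ q * m) 1,
      ev (4 * ((bb q k x : ℝ) + 1) * m) 1] with A h1 h2
    constructor
    · refine le_trans (le_of_eq ?_) h1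
      ring
    · refine le_trans (le_of_eq ?_) h2
      ring
  have h0 : ∃ A : ℕ, 1 ≤ A ∧ 9 * (((0 : ℕ) : ℝ) + 1) ^ m ≤ 2 ^ A ∧
      (m : ℝ) * A ≤ 2 ^ A ∧ ((((0 : ℕ) : ℝ) + 1) * (m * A)) ^ (0 + 1) ≤ 2 ^ A := (hP 0).exists
  have hstep : ∀ k x : ℕ, ∃ A : ℕ, (1 ≤ A ∧ 9 * (((k + 1 : ℕ) : ℝ) + 1) ^ m ≤ 2 ^ A ∧
      (m : ℝ) * A ≤ 2 ^ A ∧ ((((k + 1 : ℕ) : ℝ) + 1) * (m * A)) ^ (k + 1 + 1) ≤ 2 ^ A) ∧
      (((k : ℝ) + 1) * bb q k x) ^ q * (m * A) ≤ 2 ^ A ∧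
      4 * ((bb q k x : ℝ) + 1) * (m * A) ≤ 2 ^ A := fun k x => ((hP (k + 1)).and (hQ k x)).exists
  choose x0 hx0 using h0
  choose F hF using hstep
  obtain ⟨A, hA0, hAs⟩ : ∃ A : ℕ → ℕ, A 0 = x0 ∧ ∀ k, A (k + 1) = F k (A k) :=
    ⟨fun k => Nat.rec x0 (fun k x => F k x) k, rfl, fun k => rfl⟩
  refine ⟨A, fun k => ?_⟩
  have h1 : 1 ≤ A k ∧ 9 * ((k : ℝ) + 1) ^ m ≤ 2 ^ (A k) ∧
      (m : ℝ) * (A k : ℝ) ≤ 2 ^ (A k) ∧
      (((k : ℝ) + 1) * (m * (A k : ℝ))) ^ (k + 1) ≤ 2 ^ (A k) := by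
    cases k with
    | zero => rw [hA0]; exact hx0
    | succ k => rw [hAs]; exact (hF k (A k)).1
  have h2 := (hF k (A k)).2
  rw [← hAs] at h2
  exact ⟨h1.1, h1.2.1, h1.2.2.1, h1.2.2.2, h2.1, h2.2⟩

lemma one_add_pow_le {x : ℝ} (hx : 0 ≤ x) (n : ℕ) (h : x * n ≤ 1) : (1 + x) ^ n ≤ 3 := by
  calc (1 + x) ^ n ≤ (Real.exp x) ^ n := by
        gcongr
        have := Real.add_one_le_exp x
        linarith
    _ = Real.exp (n * x) := (Real.exp_nat_mul x n).symm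
    _ ≤ Real.exp 1 := by
        apply Real.exp_le_exp.2
        linarith
    _ ≤ 3 := by
        have := Real.exp_one_lt_d9
        linarith

/-- The weight data. -/
theorem exists_weights (q : ℝ) (hq : 1 ≤ q) : ∃ (a b α : ℕ → ℕ) (M : ℕ → ℝ),
    (∀ k, 1 ≤ a k) ∧ (∀ k, 1 ≤ α k) ∧ (∀ n, 1 ≤ M n) ∧ M 0 = 1 ∧ (∀ n, M (n + 1) ≤ 3 * M n) ∧
    (∀ k j n, b k < j → j * α (k + 1) ≤ a (k + 1) → M (n + j) ≤ 3 * M n) ∧
    (∀ k n, 2 * a k ≤ n → n ≤ b k → ((k : ℝ) + 1) * ((n : ℝ) + 1) ^ 2 ≤ M n) ∧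
    (∀ k : ℕ, ((a k : ℝ) * ((k : ℝ) + 1)) ^ q ≤ b k) ∧
    (∀ k : ℕ, (b k : ℝ) ≤ 2 * ((a k : ℝ) * ((k : ℝ) + 1)) ^ q) ∧
    (∀ k : ℕ, (((k : ℝ) + 1) * b k) ^ q * α (k + 1) ≤ a (k + 1)) ∧
    (∀ k : ℕ, 4 * ((b k : ℝ) + 1) * α (k + 1) ≤ a (k + 1)) ∧
    (∀ k : ℕ, (((k : ℝ) + 1) * α k) ^ (k + 1) ≤ a k) := by
  classical
  set m' := ⌈q⌉₊ with hm'
  have hm1 : q ≤ m' := Nat.le_ceil q
  set m := 2 * m' + 1 with hm
  obtain ⟨A, hA⟩ := exists_A q m
  set a : ℕ → ℕ := fun k => 2 ^ A k with ha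
  set α : ℕ → ℕ := fun k => m * A k with hα
  set b : ℕ → ℕ := fun k => bb q k (A k) with hb
  have hac : ∀ k, ((a k : ℕ) : ℝ) = 2 ^ A k := fun k => by simp [ha]
  have hαc : ∀ k, ((α k : ℕ) : ℝ) = m * A k := fun k => by simp [hα]
  have ha1 : ∀ k, 1 ≤ a k := fun k => Nat.one_le_two_pow
  have hα1 : ∀ k, 1 ≤ α k := fun k => by
    have := (hA k).1
    have h2 : 1 ≤ m := by omega
    exact Nat.one_le_iff_ne_zero.2 (mul_ne_zero (by omega) (by omega))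
  have hb1 : ∀ k : ℕ, ((a k : ℝ) * ((k : ℝ) + 1)) ^ q ≤ b k := by
    intro k
    rw [hac]
    exact Nat.le_ceil _
  have hx1 : ∀ k : ℕ, 1 ≤ (a k : ℝ) * ((k : ℝ) + 1) := by
    intro k
    have h1 : (1 : ℝ) ≤ a k := by exact_mod_cast ha1 k
    have h2 : (0 : ℝ) ≤ k := Nat.cast_nonneg k
    nlinarith
  have hxq : ∀ k : ℕ, 1 ≤ ((a k : ℝ) * ((k : ℝ) + 1)) ^ q := fun k =>
    Real.one_le_rpow (hx1 k) (by linarith)
  have hb2 : ∀ k : ℕ, (b k : ℝ) ≤ ((a k : ℝ) * ((k : ℝ) + 1)) ^ q + 1 := by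
    intro k
    rw [hac]
    exact (Nat.ceil_lt_add_one (by positivity)).le
  have hQ1 : ∀ k : ℕ, (((k : ℝ) + 1) * b k) ^ q * α (k + 1) ≤ a (k + 1) := by
    intro k
    rw [hac, hαc]
    exact (hA k).2.2.2.2.1
  have hQ2 : ∀ k : ℕ, 4 * ((b k : ℝ) + 1) * α (k + 1) ≤ a (k + 1) := by
    intro k
    rw [hac, hαc]
    exact (hA k).2.2.2.2.2
  have hαa : ∀ k, α k ≤ a k := by
    intro k
    have := (hA k).2.2.1
    rw [← hαc, ← hac] at this
    exact_mod_cast this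
  have hab : ∀ k, a k ≤ b k := by
    intro k
    have h1 := hb1 k
    have h2 : (a k : ℝ) ≤ ((a k : ℝ) * ((k : ℝ) + 1)) ^ q := by
      have h3 : (a k : ℝ) * ((k : ℝ) + 1) ≤ ((a k : ℝ) * ((k : ℝ) + 1)) ^ q :=
        Real.self_le_rpow_of_one_le (hx1 k) hq
      have h4 : (0 : ℝ) ≤ k := Nat.cast_nonneg k
      have h5 : (0 : ℝ) ≤ a k := Nat.cast_nonneg _
      nlinarith
    exact_mod_cast h2.trans h1
  have hba : ∀ k, b k < a (k + 1) := by
    intro k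
    have h1 := hQ2 k
    have h2 : (1 : ℝ) ≤ α (k + 1) := by exact_mod_cast hα1 (k + 1)
    have h3 : (0 : ℝ) ≤ b k := Nat.cast_nonneg _
    have h4 : (b k : ℝ) < a (k + 1) := by nlinarith
    exact_mod_cast h4
  have hbmono : Monotone b := monotone_nat_of_le_succ fun k => (hba k).le.trans (hab (k + 1))
  have hamono : Monotone a := monotone_nat_of_le_succ fun k => (hab k).trans (hba k).le
  -- uniqueness of the block
  have huniq : ∀ k l n, a k ≤ n → n ≤ b k → a l ≤ n → n ≤ b l → k = l := by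
    intro k l n h1 h2 h3 h4
    rcases lt_trichotomy k l with h | h | h
    · have := hba k
      have := hamono (show k + 1 ≤ l from h)
      omega
    · exact h
    · have := hba l
      have := hamono (show l + 1 ≤ k from h)
      omega
  let M : ℕ → ℝ := fun n => if h : ∃ k, a k ≤ n ∧ n ≤ b k then
    ((n : ℝ) / a h.choose) ^ (α h.choose) else 1
  have hM1 : ∀ k n, a k ≤ n → n ≤ b k → M n = ((n : ℝ) / a k) ^ (α k) := by
    intro k n h1 h2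
    have hex : ∃ k, a k ≤ n ∧ n ≤ b k := ⟨k, h1, h2⟩
    have h3 : hex.choose = k := huniq _ _ n hex.choose_spec.1 hex.choose_spec.2 h1 h2
    simp only [M]
    rw [dif_pos hex, h3]
  have hM2 : ∀ n, (¬ ∃ k, a k ≤ n ∧ n ≤ b k) → M n = 1 := by
    intro n hn
    simp only [M]
    rw [dif_neg hn]
  have hapos : ∀ k, (0 : ℝ) < a k := fun k => by
    have := ha1 k
    exact_mod_cast this
  have hM0 : ∀ n, 1 ≤ M n := by
    intro n
    by_cases hex : ∃ k, a k ≤ n ∧ n ≤ b k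
    · obtain ⟨k, h1, h2⟩ := hex
      rw [hM1 k n h1 h2]
      apply one_le_pow₀
      rw [le_div_iff₀ (hapos k), one_mul]
      exact_mod_cast h1
    · rw [hM2 n hex]
  -- the key ratio estimate
  have key : ∀ i n j, a i ≤ n + j → n + j ≤ b i → j * α i ≤ a i → M (n + j) ≤ 3 * M n := by
    intro i n j h1 h2 h3
    have hai := hapos i
    rw [hM1 i (n + j) h1 h2]
    have h3' : (j : ℝ) * α i ≤ a i := by exact_mod_cast h3
    rcases Nat.lt_or_ge n (a i) with hlt | hge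
    · have h4 : (((n + j : ℕ) : ℝ) / a i) ≤ 1 + (j : ℝ) / a i := by
        rw [div_le_iff₀ hai, add_mul, one_mul, div_mul_cancel₀ _ hai.ne']
        have : (n : ℝ) < a i := by exact_mod_cast hlt
        push_cast
        linarith
      calc (((n + j : ℕ) : ℝ) / a i) ^ (α i) ≤ (1 + (j : ℝ) / a i) ^ (α i) := by gcongr
        _ ≤ 3 := by
          apply one_add_pow_le (by positivity)
          rw [div_mul_eq_mul_div, div_le_one hai]
          exact h3'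
        _ ≤ 3 * M n := by
          have := hM0 n
          linarith
    · rw [hM1 i n hge (by omega)]
      have hn : (0 : ℝ) < n := by
        have : (a i : ℝ) ≤ n := by exact_mod_cast hge
        linarith
      have h4 : (((n + j : ℕ) : ℝ) / a i) = (1 + (j : ℝ) / n) * ((n : ℝ) / a i) := by
        push_cast
        field_simp
      rw [h4, mul_pow]
      gcongr
      apply one_add_pow_le (by positivity)
      rw [div_mul_eq_mul_div, div_le_one hn]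
      have : (a i : ℝ) ≤ n := by exact_mod_cast hge
      linarith
  refine ⟨a, b, α, M, ha1, hα1, hM0, ?_, ?_, ?_, ?_, hb1, ?_, hQ1, hQ2, ?_⟩
  · apply hM2
    rintro ⟨k, h1, _⟩
    have := ha1 k
    omega
  · intro n
    by_cases hex : ∃ k, a k ≤ n + 1 ∧ n + 1 ≤ b k
    · obtain ⟨k, h1, h2⟩ := hex
      exact key k n 1 h1 h2 (by rw [one_mul]; exact hαa k)
    · rw [hM2 _ hex]
      have := hM0 n
      linarith
  · intro k j n h1 h2
    by_cases hex : ∃ i, a i ≤ n + j ∧ n + j ≤ b i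
    · obtain ⟨i, h3, h4⟩ := hex
      apply key i n j h3 h4
      have hi : k + 1 ≤ i := by
        by_contra hlt
        have := hbmono (show i ≤ k by omega)
        omega
      rcases Nat.eq_or_lt_of_le hi with h5 | h5
      · rw [← h5]; exact h2
      · -- j ≤ a (k+1) ≤ b (i-1)
        obtain ⟨l, rfl⟩ : ∃ l, i = l + 1 := ⟨i - 1, by omega⟩
        have h6 : j ≤ a (k + 1) := by
          have := hα1 (k + 1)
          nlinarith
        have h7 : a (k + 1) ≤ b l := (hamono (show k + 1 ≤ l by omega)).trans (hab l)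
        have h8 := hQ2 l
        have h9 : (j : ℝ) ≤ b l := by exact_mod_cast h6.trans h7
        have h10 : (0 : ℝ) ≤ α (l + 1) := Nat.cast_nonneg _
        have h11 : (0 : ℝ) ≤ b l := Nat.cast_nonneg _
        have h12 : (j : ℝ) * α (l + 1) ≤ a (l + 1) := by nlinarith
        exact_mod_cast h12
    · rw [hM2 _ hex]
      have := hM0 n
      linarith
  · intro k n h1 h2
    rw [hM1 k n (by omega) h2]
    have h3 : (2 : ℝ) ≤ (n : ℝ) / a k := by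
      rw [le_div_iff₀ (hapos k)]
      exact_mod_cast h1
    have h4 : (2 : ℝ) ^ (α k) ≤ ((n : ℝ) / a k) ^ (α k) := by gcongr
    refine le_trans ?_ h4
    have h5 : (2 : ℝ) ^ (α k) = (a k : ℝ) ^ m := by
      rw [hac, ← pow_mul, hα]
      simp only
      rw [mul_comm]
    rw [h5]
    have h6 : ((n : ℝ) + 1) ≤ 3 * ((a k : ℝ) * ((k : ℝ) + 1)) ^ m' := by
      have h7 : (n : ℝ) ≤ b k := by exact_mod_cast h2
      have h8 := hb2 k
      have h9 := hxq k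
      have h10 : ((a k : ℝ) * ((k : ℝ) + 1)) ^ q ≤ ((a k : ℝ) * ((k : ℝ) + 1)) ^ m' := by
        rw [← Real.rpow_natCast]
        exact Real.rpow_le_rpow_of_exponent_le (hx1 k) hm1
      linarith
    have h11 := (hA k).2.1
    rw [← hac] at h11
    have h12 : (0 : ℝ) ≤ k := Nat.cast_nonneg k
    calc ((k : ℝ) + 1) * ((n : ℝ) + 1) ^ 2 ≤
        ((k : ℝ) + 1) * (3 * ((a k : ℝ) * ((k : ℝ) + 1)) ^ m') ^ 2 := by gcongr
      _ = (9 * ((k : ℝ) + 1) ^ m) * (a k : ℝ) ^ (2 * m') := by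
        rw [mul_pow, mul_pow, mul_pow, hm]
        ring
      _ ≤ (a k : ℝ) * (a k : ℝ) ^ (2 * m') := by gcongr
      _ = (a k : ℝ) ^ m := by rw [hm]; ring
  · intro k
    have := hb2 k
    have := hxq k
    linarith
  · intro k
    rw [hac, hαc]
    exact (hA k).2.2.2.1

end Pool.Agent.V11113.DC
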